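import Pool.Agent.H41.SS.Targets

/-!
# GSZ: the size of all resolution refutations
-/

set_option autoImplicit false

namespace Pool.Agent.H17.SSM

open Finset Pool.Agent.H97.RK Pool.Agent.H97.RL Pool.Agent.H41.SS

/-- GSZ: the size -/
theorem pf_GSZ (hTAS : T_TAS) (hMES : T_MES) (hCN2 : Pool.Agent.H97.RK.T_CN2) : T_GSZ := by
  intro n k m F t d w ht hw hEx hGd S r line rule href
  have hG2 : ∀ x : Fin n → Bool, Gd F (2 * t) d w x := by
    intro x T W h1 h2 h3
    exact lt_of_lt_of_le (hGd x T W h1 h2 h3) (by omega)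
  refine hCN2 n S (d + 2 * t) (4 * t) (w + d) line ?_
  intro x A hA
  obtain ⟨y, W, J, hSta, hdst⟩ := hTAS n k m F (2 * t) d w (by omega) (by omega) hEx hG2 x A hA
  obtain ⟨i, hi, z, hz, hF, hn⟩ := hMES n k m F t d w 0 ht (by omega) hGd S r line rule href y A W J
    hSta
  exact ⟨i, hi, y, z, by omega, hz, hF, hn⟩

end Pool.Agent.H17.SSM
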