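import Pool.Agent.H41.SS.Targets

/-!
# RSZ: the size of refutations in which few variables are resolved in more than one part
-/

set_option autoImplicit false

namespace Pool.Agent.H17.SSM

open Finset Pool.Agent.H97.RK Pool.Agent.H97.RL Pool.Agent.H41.SS

open Classical in
/-- RSZ: the size -/
theorem pf_RSZ (hTRE : T_TRE) (hINI : T_INI) (hGOO : T_GOO) (hRUN : Pool.Agent.H41.SS.T_RUN)
    (hCNR : T_CNR) : T_RSZ := by
  intro n k m F D d w u h hD hw hn hEx hbad S r line rule href U V honce hU hseg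
  obtain ⟨an, ls, htree⟩ := hTRE n k m F S r line rule href (U ∪ V) honce
  obtain ⟨hgoo, hmany⟩ := hGOO n k m F D d w u (by omega) hbad
  have hr : line r = ∅ := href.2.1
  have hPr : (r ∈ U ∨ r = r) ∧ r ≤ r ∧ AtS F D line r := by
    refine ⟨Or.inr rfl, le_rfl, fun _ => false, ∅, ∅, ?_, ?_⟩
    · have h1 : vs (line r) = ∅ := by rw [hr]; rfl
      rw [h1]
      exact hINI n k m F D hD hEx _
    · intro l hl
      rw [hr] at hl
      exact absurd hl (Finset.notMem_empty l)
  have hex : ∃ l, (l ∈ U ∨ l = r) ∧ l ≤ r ∧ AtS F D line l := ⟨r, hPr⟩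
  obtain ⟨h1, h2, y, W, J, hSta, hF⟩ := Nat.find_spec hex
  have hmin : ∀ l', l' < Nat.find hex → ¬ ((l' ∈ U ∨ l' = r) ∧ l' ≤ r ∧ AtS F D line l') :=
    fun l' hl' => Nat.find_min hex hl'
  generalize Nat.find hex = l at *
  have hcard : (vs (line l) \ W).card ≤ u := by
    rcases h1 with h1 | h1
    · exact (Finset.card_le_card Finset.sdiff_subset).trans (hU l h1)
    · have h3 : vs (line l) = ∅ := by rw [h1, hr]; rfl
      rw [h3, Finset.empty_sdiff, Finset.card_empty]
      exact Nat.zero_le u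
  have hX := hmany (vs (line l) \ W) y hcard
  have hcnr := hCNR n S (h + 2 * (w + d) + u + 1) (4 * D) (fun i => exC (line (an i)) (ls i))
    (univ.filter fun z => Gd F D d w z ∧ ∀ v ∈ vs (line l) \ W, z v = y v) (by
      intro x hx
      rw [Finset.mem_filter] at hx
      obtain ⟨-, hgd, hxy⟩ := hx
      have hrun := hRUN n k m F D d w u h hw hgoo hn S r line rule href U V an ls htree hU hseg
        l x y W J (lt_of_le_of_lt h2 href.1) h2 h1 hSta hF hgd hxy
      rcases hrun with hrun | ⟨l', hl', hl'U, hat⟩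
      · obtain ⟨i, hi, y', hy', hc, hd⟩ := hrun
        exact ⟨i, hi, y', hy', hc, hd⟩
      · exact absurd ⟨Or.inl hl'U, hl'.le.trans h2, hat⟩ (hmin l' hl'))
  calc 2 ^ n ≤ (univ.filter fun z => Gd F D d w z ∧ ∀ v ∈ vs (line l) \ W, z v = y v).card *
        2 ^ (u + 1) := hX
    _ ≤ (S * (2 ^ (h + 2 * (w + d) + u + 1) * bl n (4 * D))) * 2 ^ (u + 1) :=
        Nat.mul_le_mul_right _ hcnr
    _ = S * (2 ^ (h + 2 * (w + d) + 2 * u + 2) * bl n (4 * D)) := by
        have e : h + 2 * (w + d) + 2 * u + 2 = (h + 2 * (w + d) + u + 1) + (u + 1) := by ring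
        rw [e, pow_add]
        ring

end Pool.Agent.H17.SSM
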